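import Pool.Agent.helper91.RB.Spec4

set_option autoImplicit false

namespace Pool.Agent.RB

open Module
open scoped Classical

lemma RAT_apply {R N : Type} [CommRing R] [AddCommGroup N] [Module R N] {r : ℕ}
    (f : Fin r → N →ₗ[R] R) (w : Fin r → N) :
    DT f (exteriorPower.ιMulti R r w) = Matrix.det (fun a i => f i (w a)) := by
  unfold DT
  rw [exteriorPower.alternatingMapLinearEquiv_apply_ιMulti]
  rfl

theorem RAT : RAT_stmt := by
  intro R N _ _ _ r o f x e hox hker u
  have h1 : ∀ (w : N) (i : Fin r), e * f i w = ∑ j, o j w * f i (x j) := by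
    intro w i
    have h2 : e • w - ∑ j, o j w • x j = 0 := by
      apply hker
      intro k
      rw [map_sub, map_smul, map_sum]
      have h3 : ∀ j, o k (o j w • x j) = if k = j then o j w * e else 0 := by
        intro j
        rw [map_smul, hox k j, smul_eq_mul]
        split_ifs
        · rfl
        · rw [mul_zero]
      rw [Finset.sum_congr rfl fun j _ => h3 j, Finset.sum_ite_eq, if_pos (Finset.mem_univ k), smul_eq_mul]
      ring
    have h4 : f i (e • w - ∑ j, o j w • x j) = 0 := by rw [h2, map_zero]
    rw [map_sub, map_smul, map_sum, sub_eq_zero, smul_eq_mul] at h4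
    rw [h4]
    exact Finset.sum_congr rfl fun j _ => by rw [map_smul, smul_eq_mul]
  have key : (e ^ r) • DT f = (Matrix.det (fun i j => f i (x j))) • DT o := by
    apply exteriorPower.linearMap_ext
    ext w
    simp only [LinearMap.compAlternatingMap_apply, LinearMap.smul_apply, smul_eq_mul]
    rw [RAT_apply, RAT_apply]
    have h5 : (Matrix.of fun a i => e * f i (w a)) =
        (Matrix.of fun a j => o j (w a)) * (Matrix.of fun i j => f i (x j)).transpose := by
      ext a i
      rw [Matrix.mul_apply]
      simp only [Matrix.of_apply, Matrix.transpose_apply]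
      exact h1 (w a) i
    have h6 : (Matrix.of fun a i => e * f i (w a)) = e • (Matrix.of fun a i => f i (w a)) := by
      ext a i
      simp [Matrix.smul_apply]
    have h7 := congrArg Matrix.det h5
    rw [h6, Matrix.det_smul, Matrix.det_mul, Matrix.det_transpose, Fintype.card_fin] at h7
    rw [mul_comm (Matrix.det (fun i j => f i (x j)))]
    exact h7
  have h8 := LinearMap.congr_fun key u
  simpa using h8

end Pool.Agent.RB
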